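import Mathlib

namespace Pool.Agent.Results.MP_a2c218_gt.Exists
open Set

/-- An `ω`-cover: open sets, not the whole space, every finite set inside some member. -/
def OmegaCover {X : Type} [TopologicalSpace X] (𝒰 : Set (Set X)) : Prop :=
  (∀ U ∈ 𝒰, IsOpen U) ∧ univ ∉ 𝒰 ∧ ∀ F : Set X, F.Finite → ∃ U ∈ 𝒰, F ⊆ U

/-- A `k`-cover: open sets, not the whole space, every compact set inside some member. -/
def KCover {X : Type} [TopologicalSpace X] (𝒰 : Set (Set X)) : Prop :=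
  (∀ U ∈ 𝒰, IsOpen U) ∧ univ ∉ 𝒰 ∧ ∀ K : Set X, IsCompact K → ∃ U ∈ 𝒰, K ⊆ U

def OmegaLindelof (X : Type) [TopologicalSpace X] : Prop :=
  ∀ 𝒰 : Set (Set X), OmegaCover 𝒰 → ∃ 𝒱 ⊆ 𝒰, 𝒱.Countable ∧ OmegaCover 𝒱

def KLindelof (X : Type) [TopologicalSpace X] : Prop :=
  ∀ 𝒰 : Set (Set X), KCover 𝒰 → ∃ 𝒱 ⊆ 𝒰, 𝒱.Countable ∧ KCover 𝒱

inductive X
  | pt (a : ℝ) (n : ℕ)
  | row (n : ℕ)
  | top

open X

instance : TopologicalSpace X where
  IsOpen U := (∀ n, row n ∈ U → {a | pt a n ∉ U}.Countable) ∧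
    (top ∈ U → ∀ a, {n | pt a n ∉ U}.Finite)
  isOpen_univ := by simp
  isOpen_inter s t hs ht := ⟨fun n h => ((hs.1 n h.1).union (ht.1 n h.2)).mono fun a ha =>
      not_and_or.1 ha, fun h a => ((hs.2 h.1 a).union (ht.2 h.2 a)).subset fun n ha =>
      not_and_or.1 ha⟩
  isOpen_sUnion s hs := ⟨fun n ⟨U, h1, h2⟩ => ((hs U h1).1 n h2).mono fun _ ha h =>
      ha ⟨U, h1, h⟩, fun ⟨U, h1, h2⟩ a => ((hs U h1).2 h2 a).subset fun _ ha h => ha ⟨U, h1, h⟩⟩

lemma op {U : Set X} : IsOpen U ↔ (∀ n, row n ∈ U → {a | pt a n ∉ U}.Countable) ∧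
    (top ∈ U → ∀ a, {n | pt a n ∉ U}.Finite) := Iff.rfl

def R (n : ℕ) : Set X := {x | x = row n ∨ ∃ a, x = pt a n}

lemma t2 : T2Space X := by
  have c1 : ∀ n, IsClopen (R n) := fun n =>
    ⟨⟨op.2 ⟨fun m h => by
        have : m ≠ n := fun e => h (Or.inl (e ▸ rfl))
        simp [R, this], fun _ a => by simp [R]⟩⟩,
      op.2 ⟨fun m h => by
        obtain rfl : m = n := by simpa [R] using h
        simp [R], fun h => by simp [R] at h⟩⟩
  have c2 : ∀ a n, IsClopen {pt a n} := fun a n =>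
    ⟨⟨op.2 ⟨fun m _ => (countable_singleton a).mono fun b hb => by simp at hb; exact hb.1,
      fun _ b => (finite_singleton n).subset fun m hm => by simp at hm; exact hm.2⟩⟩,
      op.2 ⟨by simp, by simp⟩⟩
  have : TotallySeparatedSpace X := totallySeparatedSpace_iff_exists_isClopen.2 fun x y h => by
    rcases x with ⟨a, n⟩ | n | _
    · exact ⟨_, c2 a n, rfl, h.symm⟩
    all_goals rcases y with ⟨b, m⟩ | m | _
    · exact ⟨_, (c2 b m).compl, h, by simp⟩
    · exact ⟨_, c1 n, Or.inl rfl, by simpa [R] using h.symm⟩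
    · exact ⟨_, c1 n, Or.inl rfl, by simp [R]⟩
    · exact ⟨_, (c2 b m).compl, h, by simp⟩
    · exact ⟨_, (c1 m).compl, by simp [R], by simp [R]⟩
    · exact absurd rfl h
  infer_instance

def Y (B : Set ℝ) : Set X := {x | ∀ a n, x = pt a n → a ∈ B}

lemma Y_count {B : Set ℝ} (h : B.Countable) : (Y B).Countable := by
  refine ((((h.prod (countable_univ (α := ℕ))).image fun p => pt p.1 p.2).union
    (countable_range row)).insert top).mono fun x hx => ?_
  rcases x with ⟨a, n⟩ | n | _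
  · exact Or.inr (Or.inl ⟨(a, n), ⟨hx a n rfl, trivial⟩, rfl⟩)
  · exact Or.inr (Or.inr ⟨n, rfl⟩)
  · exact Or.inl rfl

lemma omega : OmegaLindelof X := by
  rintro 𝒰 ⟨h1, h2, h3⟩
  choose! U hU sU using h3
  let D : Set X → Set ℝ := fun s => ⋃ n, {a | row n ∈ U s ∧ pt a n ∉ U s}
  have hD : ∀ s : Set X, s.Finite → (D s).Countable := fun s hs => countable_iUnion fun n => by
    by_cases c : row n ∈ U s
    · exact ((op.1 (h1 _ (hU s hs))).1 n c).mono fun a ha => ha.2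
    · simp [c]
  let A : ℕ → Set ℝ := fun k => Nat.rec ∅ (fun _ B => B ∪ ⋃ s ∈ {s | s.Finite ∧ s ⊆ Y B}, D s) k
  have hA : ∀ k, (A k).Countable := fun k => by
    induction k with
    | zero => exact countable_empty
    | succ k ih =>
      exact ih.union ((countable_setOf_finite_subset (Y_count ih)).biUnion fun s hs => hD s hs.1)
  have mA : Monotone fun k => Y (A k) := monotone_nat_of_le_succ fun k x hx a n e =>
    Or.inl (hx a n e)
  refine ⟨U '' {s | s.Finite ∧ s ⊆ Y (⋃ k, A k)}, by rintro _ ⟨s, hs, rfl⟩; exact hU s hs.1,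
    (countable_setOf_finite_subset (Y_count (countable_iUnion hA))).image _,
    by rintro _ ⟨s, hs, rfl⟩; exact h1 _ (hU s hs.1),
    by rintro ⟨s, hs, e⟩; exact h2 (e ▸ hU s hs.1), fun F hF => ?_⟩
  let r : X → X := fun x => match x with
    | pt _ n => row n
    | _ => top
  have f : (F ∩ Y (⋃ k, A k) ∪ r '' F).Finite := (hF.inter_of_left _).union (hF.image r)
  have s : F ∩ Y (⋃ k, A k) ∪ r '' F ⊆ Y (⋃ k, A k) := by
    rintro x (h | ⟨y, -, rfl⟩)
    · exact h.2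
    · rcases y with _ | _ | _ <;> simp [r, Y]
  refine ⟨_, ⟨_, ⟨f, s⟩, rfl⟩, fun x hx => ?_⟩
  by_cases c : x ∈ Y (⋃ k, A k)
  · exact sU _ f (Or.inl ⟨hx, c⟩)
  simp only [Y, mem_ofPred_eq, not_forall] at c
  obtain ⟨a, n, rfl, c⟩ := c
  obtain ⟨k, hk⟩ : ∃ k, F ∩ Y (⋃ k, A k) ∪ r '' F ⊆ Y (A k) := by
    rw [← f.coe_toFinset]
    refine Directed.exists_mem_subset_of_finset_subset_biUnion mA.directed_le fun y hy => ?_
    rw [f.coe_toFinset] at hy
    rcases y with ⟨b, m⟩ | m | _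
    · obtain ⟨k, hk⟩ := mem_iUnion.1 (s hy b m rfl)
      exact mem_iUnion.2 ⟨k, fun _ _ e => by cases e; exact hk⟩
    all_goals exact mem_iUnion.2 ⟨0, by simp [Y]⟩
  by_contra d
  exact c (mem_iUnion.2 ⟨k + 1, Or.inr (mem_biUnion ⟨f, hk⟩
    (mem_iUnion.2 ⟨n, sU _ f (Or.inr ⟨_, hx, rfl⟩), d⟩))⟩)

def O (m : ℕ) (F : Set ℝ) : Set X := {x | (∀ n, x = row n → n < m) ∧ ∀ a, x = pt a m → a ∈ F}

lemma O_open (m : ℕ) (F : Set ℝ) : IsOpen (O m F) :=
  op.2 ⟨fun n h => by simp [O, (h.1 n rfl).ne], fun _ a =>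
    (finite_singleton m).subset fun n hn => by simp [O] at hn; exact hn.1⟩

lemma notk : ¬ KLindelof X := by
  intro h
  obtain ⟨𝒱, h1, h2, -, -, h3⟩ := h {U | ∃ m F, F.Finite ∧ U = O m F}
    ⟨by rintro _ ⟨m, F, -, rfl⟩; exact O_open m F,
     by rintro ⟨m, F, -, e⟩; simpa [O] using e.subset (mem_univ (row m)), fun K hK => by
      obtain ⟨m, hm⟩ := hK.elim_directed_cover (fun m => O m univ) (fun m => O_open _ _)
        (fun x _ => by
          rcases x with _ | n | _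
          exacts [mem_iUnion.2 ⟨0, by simp [O]⟩, mem_iUnion.2 ⟨n + 1, by simp [O]⟩,
            mem_iUnion.2 ⟨0, by simp [O]⟩])
        (Monotone.directed_le fun a b l x hx => ⟨fun n e => (hx.1 n e).trans_le l, by simp⟩)
      obtain ⟨F, hF⟩ := hK.elim_directed_cover (fun F : Finset ℝ => O m F) (fun m => O_open _ _)
        (fun x hx => by
          rcases x with ⟨a, n⟩ | n | _
          exacts [mem_iUnion.2 ⟨{a}, by simp +contextual [O]⟩,
            mem_iUnion.2 ⟨∅, (hm hx).1, by simp⟩, mem_iUnion.2 ⟨∅, by simp [O]⟩])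
        (Monotone.directed_le fun a b l x hx => ⟨hx.1, fun c e => Finset.coe_subset.2 l (hx.2 c e)⟩)
      exact ⟨_, ⟨m, F, F.finite_toSet, rfl⟩, hF⟩⟩
  choose! m F hF e using h1
  obtain ⟨a, ha⟩ : ∃ a, a ∉ ⋃ U ∈ 𝒱, F (a := U) := by
    by_contra c
    push Not at c
    exact not_countable_univ ((h2.biUnion fun U hU => (hF hU).countable).mono fun a _ => c a)
  obtain ⟨U, hU, s⟩ := h3 (insert top (range (pt a))) (by
    refine Filter.Tendsto.isCompact_insert_range (tendsto_nhds.2 fun s hs ht => ?_)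
    rw [← Nat.cofinite_eq_atTop]
    exact (op.1 hs).2 ht a)
  exact ha (mem_biUnion hU (((e hU).subset (s (Or.inr ⟨m (a := U), rfl⟩))).2 a rfl))

theorem result : ∃ (Z : Type) (_ : TopologicalSpace Z), T2Space Z ∧ OmegaLindelof Z ∧
    ¬ KLindelof Z := ⟨X, inferInstance, t2, omega, notk⟩

end Pool.Agent.Results.MP_a2c218_gt.Exists
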